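import Pool.Agent.GP.Desc.Final5

/-!
# Effective stability of `X⁺` over all tame levels supported on a finite set of primes

`p` is an odd prime and `S` a finite set of primes `l ≠ p`. For every `N` all of whose prime factors
lie in `S`, restriction of automorphisms is a bijection from `X⁺(N)` onto `X⁺(gcd(N,M))`, for an
explicit `M` that depends only on `p` and `S`.
-/

namespace Pool.Agent.Results.MP_c2a07f_nt.EffectiveStability

open Pool.Agent.GP

theorem result : ∀ p : ℕ, p.Prime → p ≠ 2 → ∀ S : Finset ℕ, (∀ l ∈ S, l.Prime ∧ l ≠ p) →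
    ∀ r : ℕ, 0 < r → 4 ∣ p ^ r - 1 →
    (∀ l ∈ S, ∀ d : ℕ, d ∣ l * (l - 1) → ¬ p ∣ d → d ∣ p ^ r - 1) →
    ∀ M : ℕ, M ≠ 0 →
    (∀ l ∈ S, (3 * p * ∏ q ∈ S, q ^ ((p ^ r - 1).factorization q + 1)) ^ l ≤
      l ^ (M.factorization l + 1)) →
    ∀ N : ℕ, N ≠ 0 → (∀ l : ℕ, l.Prime → l ∣ N → l ∈ S) → XplusRestrictBij p N (Nat.gcd N M) :=
  fun _ hp hp2 _ hS _ hr0 hr4 hr _ hM hb _ hN hNS =>
    xplusRestrictBij_supported hp hp2 hS hr0 hr4 hr hM hb hN hNS

end Pool.Agent.Results.MP_c2a07f_nt.EffectiveStability
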