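import Pool.Agent.GP.Half.Final

/-!
# For almost all `p`, at least half of the even eigenspaces `X_θ` vanish, uniformly in the tame level

`S` is a finite set of primes and `ε > 0`.  For all primes `p` outside a set `T` with
`#(T ∩ [1, x]) ≤ C x ^ (1 - δ)`, every `N ≥ 1` with all prime factors in `S` and every prime `l`: the
number of odd primitive characters `χ` modulo `N p` with `X_θ ≠ 0`, `θ = ω χ`, is at most
`½ (1 - min(1, log (l ^ v_l(N)) / (φ(l - 1) log p)) + ε)` times the number of all odd primitive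
characters modulo `N p`.
-/

namespace Pool.Agent.Results.MP_c2a07f_nt.EigenspaceDensity

open Pool.Agent.GP

theorem result : ∀ (S : Finset ℕ) (ε : ℝ), 0 < ε →
    ∃ (T : Set ℕ) (C δ : ℝ), 0 < δ ∧
      (∀ x : ℕ, ((T ∩ Set.Iic x).ncard : ℝ) ≤ C * (x : ℝ) ^ (1 - δ)) ∧
      ∀ (p : ℕ) [Fact p.Prime], p ∉ T → ∀ N : ℕ, 0 < N → N.primeFactors ⊆ S →
        ∀ l : ℕ, l.Prime → ((badChar p N).ncard : ℝ) ≤
          1 / 2 * (1 - min 1 ((N.factorization l : ℝ) * Real.log l /
            ((l - 1).totient * Real.log p)) + ε) * (oddPrim p N).ncard :=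
  fun S ε hε => Half.density S ε hε

end Pool.Agent.Results.MP_c2a07f_nt.EigenspaceDensity
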