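import Pool.Agent.GP.Bridge
import Pool.Agent.GP.Desc.Final6

/-!
# `X⁺` along the `3`-power levels, for `p ≡ 2, 5 (mod 9)`

For `p - 2 < 2 * 3 ^ K` and all `k ≥ K` restriction of automorphisms is a bijection from the plus
part for the tame level `3 ^ k` onto the plus part for the tame level `3 ^ K`; for `p = 5` the plus
part is trivial for every level `3 ^ k` (`k ≥ 0`).
-/

namespace Pool.Agent.Results.MP_c2a07f_nt.ThreePowerTowers

open Pool.Agent.GP

theorem result :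
    (∀ p : ℕ, p.Prime → 5 ≤ p → (p % 9 = 2 ∨ p % 9 = 5) →
      ∀ K : ℕ, 1 ≤ K → p < 2 * 3 ^ K + 2 → ∀ k : ℕ, K ≤ k →
        XplusRestrictBij p (3 ^ k) (3 ^ K)) ∧
    ∀ k : ℕ, XplusTrivial 5 (3 ^ k) :=
  ⟨fun _ hp hp5 hp9 _ hK hKp _ hk => xplusRestrictBij_three_pow hp hp5 hp9 hK hKp hk,
    fun k => (xplusTrivial_iff 5 (3 ^ k)).mpr (Xplus_five_three_pow k)⟩

end Pool.Agent.Results.MP_c2a07f_nt.ThreePowerTowers
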