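import Pool.Agent.TTh.FinalT

/-!
# At least `N ^ (2/3 - ε)` even eigenspaces `X_θ` vanish

`p` is an odd prime. For all large `N` with `p ∤ N φ(N)` and every `i`, at least `N ^ (2/3 - ε)` of
the characters `ψ : (ℤ/N)ˣ → 𝔽̄_pˣ` are such that `θ = ω ^ i ψ` is even and `X_θ = 0`, where
`X = Gal(L/ℚ(ζ_{N p^∞}))` and `L` is the maximal unramified abelian pro-`p` extension.
-/

namespace Pool.Agent.Results.MP_c2a07f_nt.TwoThirds

open Pool.Agent.TTh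

theorem result : ∀ (p : ℕ) [Fact p.Prime], p ≠ 2 → ∀ ε : ℝ, 0 < ε →
    ∃ N₀ : ℕ, ∀ N : ℕ, N₀ ≤ N → ¬ p ∣ N → ¬ p ∣ N.totient → ∀ i : ℕ,
      (N : ℝ) ^ (2 / 3 - ε) ≤ (evenZero p N i).ncard :=
  two_thirds

end Pool.Agent.Results.MP_c2a07f_nt.TwoThirds
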